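import Pool.Agent.H60.PO.Smooth

/-!
# Quadratic growth of periodic orbits for symmetric Hamiltonian diffeomorphisms of tori

Hamiltonian diffeomorphisms of `T^{2n}` (all `n ≥ 1`) generated by Hamiltonians which are
symmetric about a common centre, the centre being an extremum which is nondegenerate for the time
average, have at least `A T^2 / log T` primitive periodic orbits of period at most `T`.
-/

set_option autoImplicit false

open Filter Topology Function
open scoped Gradient

namespace Pool.Agent.Results.MP_39bf4a_gt.SymmetricExtremum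

/-- Points `(x, y)` of `ℝ^{2n}`. -/
abbrev Pt (n : ℕ) := EuclideanSpace ℝ (Fin n) × EuclideanSpace ℝ (Fin n)

/-- The torus `T^{2n} = ℝ^{2n} / ℤ^{2n}`. -/
abbrev Torus (n : ℕ) := (Fin n → UnitAddCircle) × (Fin n → UnitAddCircle)

/-- The projection `ℝ^{2n} → T^{2n}`. -/
def proj {n : ℕ} (z : Pt n) : Torus n :=
  (fun i => ((z.1 i : ℝ) : UnitAddCircle), fun i => ((z.2 i : ℝ) : UnitAddCircle))

/-- `H` is (the lift of) a `C^2` function on `ℝ/ℤ × T^{2n}`. -/
structure IsHamiltonian {n : ℕ} (H : ℝ → Pt n → ℝ) : Prop where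
  smooth : ContDiff ℝ 2 fun p : ℝ × Pt n => H p.1 p.2
  time : ∀ t z, H (t + 1) z = H t z
  space : ∀ t z w, proj z = proj w → H t z = H t w

/-- `f` is the time-one map on `T^{2n}` of the Hamiltonian flow of `H`:
`x' = ∂H/∂y`, `y' = -∂H/∂x`. -/
def IsTimeOne {n : ℕ} (H : ℝ → Pt n → ℝ) (f : Torus n → Torus n) : Prop :=
  ∀ γ : ℝ → Pt n,
    (∀ t, HasDerivAt γ (∇ (fun y => H t ((γ t).1, y)) (γ t).2,
      -∇ (fun x => H t (x, (γ t).2)) (γ t).1) t) →
    f (proj (γ 0)) = proj (γ 1)

/-- The composition `f (r-1) ∘ ⋯ ∘ f 0`. -/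
def compose {n : ℕ} (f : ℕ → Torus n → Torus n) : ℕ → Torus n → Torus n
  | 0 => id
  | r + 1 => f r ∘ compose f r

/-- The number of primitive periodic orbits of `φ` of period at most `T`. -/
noncomputable def P {n : ℕ} (φ : Torus n → Torus n) (T : ℝ) : ℕ∞ :=
  {O : Set (Torus n) | ∃ x, 0 < minimalPeriod φ x ∧ (minimalPeriod φ x : ℝ) ≤ T ∧
    O = {y | ∃ k : ℕ, y = φ^[k] x}}.encard

/-- The projection as a homomorphism. -/
def projHom (n : ℕ) : Pt n →+ Torus n where
  toFun := proj
  map_zero' := rfl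
  map_add' _ _ := rfl

theorem proj_eq {n : ℕ} (a b : Pt n) : proj a = proj b ↔ a - b ∈ (projHom n).ker := by
  rw [AddMonoidHom.mem_ker, map_sub, sub_eq_zero]
  rfl

theorem coord_aux {n : ℕ} (v : EuclideanSpace ℝ (Fin n)) :
    ∃ e : EuclideanSpace ℝ (Fin n), (∀ i, ((e i : ℝ) : UnitAddCircle) = 0) ∧
      ‖v + e‖ ≤ n := by
  refine ⟨WithLp.toLp 2 fun i => -(⌊v i⌋ : ℝ), fun i => ?_, ?_⟩
  · change (((-(⌊v i⌋ : ℝ)) : ℝ) : UnitAddCircle) = 0
    rw [AddCircle.coe_eq_zero_iff]
    exact ⟨-⌊v i⌋, by simp⟩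
  · have h1 : ∀ i, ‖(v + WithLp.toLp 2 fun i => -(⌊v i⌋ : ℝ)) i‖ ≤ 1 := by
      intro i
      change ‖v i + -(⌊v i⌋ : ℝ)‖ ≤ 1
      rw [Real.norm_eq_abs, abs_le]
      have h2 := Int.floor_le (v i)
      have h3 := Int.lt_floor_add_one (v i)
      constructor <;> linarith
    rw [EuclideanSpace.norm_eq, Real.sqrt_le_left (Nat.cast_nonneg n)]
    calc ∑ i, ‖(v + WithLp.toLp 2 fun i => -(⌊v i⌋ : ℝ)) i‖ ^ 2 ≤ ∑ i : Fin n, (1 : ℝ) := by
          refine Finset.sum_le_sum fun i _ => ?_
          have := h1 i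
          have := norm_nonneg ((v + WithLp.toLp 2 fun i => -(⌊v i⌋ : ℝ)) i)
          nlinarith
      _ = n := by simp
      _ ≤ (n : ℝ) ^ 2 := by
          have : (n : ℝ) ≤ n * n := by exact_mod_cast Nat.le_mul_self n
          rw [sq]; exact this

theorem cocompact {n : ℕ} : ∀ z : Pt n, ∃ e ∈ (projHom n).ker, ‖z + e‖ ≤ n := by
  intro z
  obtain ⟨e1, h1, h1'⟩ := coord_aux z.1
  obtain ⟨e2, h2, h2'⟩ := coord_aux z.2
  refine ⟨(e1, e2), ?_, ?_⟩
  · rw [AddMonoidHom.mem_ker]
    exact Prod.ext (funext h1) (funext h2)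
  · rw [Prod.norm_def]
    exact max_le h1' h2'

theorem smul_ker {n : ℕ} {s : ℝ} (hs : s = 1 ∨ s = -1) (e : Pt n) (he : e ∈ (projHom n).ker) :
    ((s • e.1, e.2) : Pt n) ∈ (projHom n).ker := by
  rw [AddMonoidHom.mem_ker] at he ⊢
  have h1 : ∀ i, ((e.1 i : ℝ) : UnitAddCircle) = 0 := fun i => congrFun (congrArg Prod.fst he) i
  have h2 : ∀ i, ((e.2 i : ℝ) : UnitAddCircle) = 0 := fun i => congrFun (congrArg Prod.snd he) i
  refine Prod.ext (funext fun i => ?_) (funext h2)
  change (((s • e.1) i : ℝ) : UnitAddCircle) = 0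
  rcases hs with rfl | rfl
  · rw [one_smul]; exact h1 i
  · rw [neg_one_smul]
    change ((-(e.1 i) : ℝ) : UnitAddCircle) = 0
    rw [AddCircle.coe_neg, h1 i, neg_zero]

open Pool.Agent.H60.PO in
/-- **Quadratic growth.** -/
theorem result {n : ℕ} (hn : 0 < n) {r : ℕ} (hr : 0 < r) (H : ℕ → ℝ → Pt n → ℝ)
    (f : ℕ → Torus n → Torus n) (c : Pt n)
    (hH : ∀ i < r, IsHamiltonian (H i)) (hf : ∀ i < r, IsTimeOne (H i) (f i))
    (hsym : ∀ i < r, ∀ t z, H i t ((2 : ℝ) • c - z) = H i t z)
    (s : ℝ) (hs : s = 1 ∨ s = -1) (ρ a : ℝ) (hρ : 0 < ρ) (ha : 0 < a)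
    (hloc : ∀ i < r, ∀ t z, ‖z - c‖ ≤ ρ → s * H i t z ≤ s * H i t c)
    (havg : ∀ z, ‖z - c‖ ≤ ρ →
      a * ‖z - c‖ ^ 2 ≤ ∑ i ∈ Finset.range r, ∫ t in (0 : ℝ)..1, s * (H i t c - H i t z)) :
    (∃ A : ℝ, 0 < A ∧ ∀ᶠ T : ℝ in atTop,
      ENNReal.ofReal (A * T ^ 2 / Real.log T) ≤ (P (compose f r) T : ENNReal)) ∧
    (2 : EReal) ≤ liminf (fun T : ℝ =>
      ENNReal.log (P (compose f r) T : ENNReal) / ((Real.log T : ℝ) : EReal)) atTop := by
  have hss : s * s = 1 := by rcases hs with rfl | rfl <;> norm_num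
  set Λ := (projHom n).ker with hΛ
  let ι : ℕ → ℕ := fun i => if i < r then i else 0
  have hι : ∀ i, ι i < r := by
    intro i
    change (if i < r then i else 0) < r
    split_ifs with h
    · exact h
    · exact hr
  have hι' : ∀ i < r, ι i = i := fun i hi => if_pos hi
  have hP : ∀ i, PerHam Λ (H (ι i)) := by
    intro i
    have h1 := hH (ι i) (hι i)
    refine ⟨h1.smooth, h1.time, fun t z e he => h1.space t _ _ ?_⟩
    rw [proj_eq, add_sub_cancel_left]
    exact he
  have hsh : ∀ i, PerHam Λ (shf s c (H (ι i))) := fun i =>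
    (hP i).shf c (fun e he => smul_ker hs e he)
  have heven : ∀ i t z, shf s c (H (ι i)) t (-z) = shf s c (H (ι i)) t z := by
    intro i t z
    change s * (H (ι i) t (aff s c (-z)) - H (ι i) t c) = s * (H (ι i) t (aff s c z) - H (ι i) t c)
    have e : aff s c (-z) = (2 : ℝ) • c - aff s c z := by
      unfold aff
      rw [two_smul]
      refine Prod.ext ?_ ?_
      · change c.1 + s • (-z.1) = c.1 + c.1 - (c.1 + s • z.1)
        rw [smul_neg]; abel
      · change c.2 + -z.2 = c.2 + c.2 - (c.2 + z.2)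
        abel
    rw [e, hsym (ι i) (hι i)]
  have aff0 : aff s c (0 : Pt n) = c := by
    unfold aff
    refine Prod.ext ?_ ?_
    · change c.1 + s • (0 : EuclideanSpace ℝ (Fin n)) = c.1
      rw [smul_zero, add_zero]
    · change c.2 + 0 = c.2
      rw [add_zero]
  have hzero : ∀ i t, shf s c (H (ι i)) t 0 = 0 := by
    intro i t
    change s * (H (ι i) t (aff s c 0) - H (ι i) t c) = 0
    rw [aff0, sub_self, mul_zero]
  choose C hC hCX hCY using fun i => (hsh i).ok cocompact (heven i) (hzero i)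
  choose E hE using fun i => (hsh i).evo (hCX i) (hCY i)
  -- a uniform constant
  obtain ⟨C0, hC0⟩ : ∃ C0 : ℝ, ∀ i < r, (C i : ℝ) ≤ C0 := by
    refine ⟨∑ i ∈ Finset.range r, (C i : ℝ), fun i hi => ?_⟩
    exact Finset.single_le_sum (f := fun i => (C i : ℝ)) (fun i _ => (C i).2)
      (Finset.mem_range.2 hi)
  have hmono : ∀ i < r, (toHam (shf s c (H (ι i)))).OK C0 := by
    intro i hi
    have h1 := hC i
    have h2 := hC0 i hi
    have hC0' : 0 < C0 := h1.pos.trans_le h2
    exact
      { pos := hC0'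
        cH := h1.cH
        cx := h1.cx
        cy := h1.cy
        tay := fun t z k => (h1.tay t z k).trans (mul_le_mul_of_nonneg_right h2 (sq_nonneg _))
        lx := fun t z z' => (h1.lx t z z').trans (mul_le_mul_of_nonneg_right h2 (norm_nonneg _))
        ly := fun t z z' => (h1.ly t z z').trans (mul_le_mul_of_nonneg_right h2 (norm_nonneg _))
        bH := fun t z => (h1.bH t z).trans h2
        bx := fun t z => (h1.bx t z).trans h2
        by' := fun t z => (h1.by' t z).trans h2
        evn := h1.evn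
        ox := h1.ox
        oy := h1.oy
        zero := h1.zero }
  have haffn : ∀ z : Pt n, ‖aff s c z - c‖ = ‖z‖ := by
    intro z
    unfold aff
    rw [add_sub_cancel_left, Prod.norm_def, Prod.norm_def]
    rcases hs with rfl | rfl
    · simp
    · simp
  let h : ℕ → Ham (EuclideanSpace ℝ (Fin n)) := fun i => toHam (shf s c (H (ι (ι i))))
  let E' : ℕ → ℝ → Pt n → ℝ → Pt n := fun i => E (ι i)
  have hfE : ∀ i < r, ∀ w : Pt n, f i (proj (aff s c w)) = proj (aff s c (E i 0 w 1)) := by
    intro i hi w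
    have h1 := hf i hi (fun t => aff s c (E i 0 w t)) (fun t => by
      have h2 := aff_sol (hP i) hss c t ((hE i).deriv 0 w t)
      have h3 := ((hP i).hasGradientAt_fst t (aff s c (E i 0 w t))).gradient
      have h4 := ((hP i).hasGradientAt_snd t (aff s c (E i 0 w t))).gradient
      rw [← h3, ← h4, hι' i hi] at h2
      exact h2)
    simp only [(hE i).init] at h1
    exact h1
  have hcomp : ∀ q ≤ r, ∀ w : Pt n,
      compose f q (proj (aff s c w)) = proj (aff s c (cmp E' q w)) := by
    intro q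
    induction q with
    | zero => intro _ w; rfl
    | succ q ih =>
      intro hq w
      change f q (compose f q (proj (aff s c w))) = proj (aff s c (E (ι q) 0 (cmp E' q w) 1))
      rw [ih (by omega), hfE q (by omega), hι' q (by omega)]
  have key : QuadGrowth (compose f r) := by
    refine flow_growth (h := h) (E := E') (C := C0) (ρ := ρ) (a := a) (r := r)
      (Λ := Λ) (π := fun w => proj (aff s c w)) (fun i => hmono (ι i) (hι i))
      (fun i => hE (ι i)) (fun i t z e he => (hsh (ι i)).fld_per t z e he) hρ ha ?_ hr ?_ ?_ ?_ ?_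
    · intro i t z hz
      change s * (H (ι (ι i)) t (aff s c z) - H (ι (ι i)) t c) ≤ 0
      have := hloc (ι (ι i)) (hι _) t (aff s c z) (by rw [haffn]; exact hz)
      rw [mul_sub]
      linarith
    · intro z hz
      have h1 := havg (aff s c z) (by rw [haffn]; exact hz)
      rw [haffn] at h1
      have h2 : ∑ i ∈ Finset.range r, ∫ t in (0 : ℝ)..1, (h i).H t z =
          -∑ i ∈ Finset.range r, ∫ t in (0 : ℝ)..1, s * (H i t c - H i t (aff s c z)) := by
        rw [← Finset.sum_neg_distrib]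
        refine Finset.sum_congr rfl fun i hi => ?_
        rw [← intervalIntegral.integral_neg]
        refine intervalIntegral.integral_congr fun t _ => ?_
        change s * (H (ι (ι i)) t (aff s c z) - H (ι (ι i)) t c) =
          -(s * (H i t c - H i t (aff s c z)))
        rw [hι' i (Finset.mem_range.1 hi), hι' i (Finset.mem_range.1 hi)]
        ring
      rw [h2]
      linarith
    · rw [finrank_euclideanSpace_fin]; exact hn
    · intro z w
      rw [proj_eq]
      have e : aff s c z - aff s c w = (s • (z - w).1, (z - w).2) := by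
        unfold aff
        refine Prod.ext ?_ ?_
        · change c.1 + s • z.1 - (c.1 + s • w.1) = s • (z.1 - w.1)
          rw [smul_sub]; abel
        · change c.2 + z.2 - (c.2 + w.2) = z.2 - w.2
          abel
      rw [e]
      constructor
      · intro h1
        have h2 := smul_ker hs _ h1
        simp only [smul_smul, hss, one_smul] at h2
        exact h2
      · intro h1
        exact smul_ker hs _ h1
    · intro w
      exact hcomp r le_rfl w
  exact key

end Pool.Agent.Results.MP_39bf4a_gt.SymmetricExtremum
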